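import Pool.Agent.BoltzM.Corr2.Size
import Pool.Agent.BoltzM.Herm.Macro

/-!
Module MC2: the corrector, given the two integral bounds for powers of `Lam`.
-/

set_option autoImplicit false

open Pool.Agent.BoltzM.BoltzC Finset

noncomputable section

namespace Pool.Agent.BoltzM.Corr2

variable [Dim]

/-- `(V_i V_j - δ_ij |V|^2 / d) sqM`. -/
def SA (i j : Ix) : SV := ap i (ap j sqMS) - (if i = j then (dd : ℝ)⁻¹ else 0) • e4

/-- `V_i (|V|^2 - (d + 2)) sqM`. -/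
def SB (i : Ix) : SV := ap i e4

lemma SA_mem (i j : Ix) : SA i j ∈ HP 3 :=
  HP_mono (by norm_num : 2 ≤ 3) (Submodule.sub_mem _ (ap_mem i (ap_mem j (sqMS_mem 0)))
    (Submodule.smul_mem _ _ e4_mem))

lemma SB_mem (i : Ix) : SB i ∈ HP 3 := ap_mem i e4_mem

lemma PP_eq_zero {f : SV} (h0 : ip sqMS f = 0) (h1 : ∀ k, ip (ap k sqMS) f = 0)
    (h2 : ip e4 f = 0) : PP f = 0 := by
  refine PP_eq_zero_iff.2 fun a => ?_
  rcases a with _ | _ | k
  exacts [h0, h2, h1 k]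

lemma PP_SA (i j : Ix) : PP (SA i j) = 0 := by
  refine PP_eq_zero ?_ (fun k => ?_) ?_
  · rw [SA, map_sub, map_smul, ip_sqMS_e4, ip_sqMS_ap, smul_zero, sub_zero]
  · rw [SA, map_sub, map_smul, ip_ap_e4, ← ip_am, am_ap_sqMS, map_smul, LinearMap.smul_apply,
      ip_sqMS_ap]
    simp
  · rw [SA, map_sub, map_smul, ip_e4_e4, ← ip_am, am_e4, map_smul, LinearMap.smul_apply,
      ip_ap_ap_sqMS]
    split_ifs
    · have := dr_ne
      simp only [smul_eq_mul]; field_simp; ring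
    · simp

lemma PP_SB (i : Ix) : PP (SB i) = 0 := by
  refine PP_eq_zero (ip_sqMS_ap _ _) (fun k => ?_) ?_
  · rw [SB, ← ip_am, am_ap_sqMS, map_smul, LinearMap.smul_apply, ip_sqMS_e4, smul_zero]
  · rw [SB, ← ip_am, am_e4, map_smul, LinearMap.smul_apply, ip_ap_e4, smul_zero]

lemma SA_eq (i j : Ix) : SA i j = mulV i (mulV j sqMS) -
    (if i = j then (dd : ℝ)⁻¹ else 0) • ∑ k, mulV k (mulV k sqMS) := by
  rw [SA, ap_ap_sqMS, e4_eq]
  split_ifs
  · rw [smul_sub, smul_smul, inv_mul_cancel₀ dr_ne]; abel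
  · simp

lemma SB_eq (i : Ix) :
    SB i = ∑ k, mulV i (mulV k (mulV k sqMS)) - (dd + 2 : ℝ) • mulV i sqMS := by
  have : SB i = mulV i e4 - (2 : ℝ) • mulV i sqMS := by
    rw [← ap_add_am, am_e4, ap_sqMS, SB]; abel
  rw [this, e4_eq, map_sub, map_sum, map_smul, add_smul]
  abel

lemma src_id (X : Ix → SV) (Y Z : Ix → Ix → SV) (p c : Ix → ℝ) (a : Ix → Ix → ℝ) (q d e : ℝ) :
    ∑ j, (-p j) • X j + ∑ i, ∑ j, (-a i j - if i = j then q else 0) • Y i j
        + ∑ i, ∑ j, (-c i) • Z i j =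
      -(∑ i, ∑ j, a i j • (Y i j - (if i = j then d else 0) • ∑ k, Y k k)
          + ∑ i, c i • (∑ k, Z i k - e • X i))
        + -(∑ j, (p j + e * c j) • X j + ∑ j, (q + d * ∑ i, a i i) • Y j j) := by
  have h1 : ∑ i, a i i • d • ∑ k, Y k k = ∑ j, (d * ∑ i, a i i) • Y j j := by
    rw [← sum_smul, smul_smul, ← smul_sum, mul_comm]
  have h2 : ∀ i, c i • e • X i = (e * c i) • X i := fun i => by rw [smul_smul, mul_comm]
  have h3 : ∀ i, c i • ∑ k, Z i k = ∑ k, c i • Z i k := fun i => smul_sum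
  simp only [sub_smul, neg_smul, add_smul, smul_sub, ite_smul, zero_smul, smul_ite, smul_zero,
    sum_sub_distrib, sum_add_distrib, sum_neg_distrib, sum_ite_eq, mem_univ, if_true, h1, h2, h3]
  abel

variable {B : BgD}

/-- Coefficient of the corrector. -/
def co (B : BgD) (a : ℝ → E3 → ℝ) (i : Ix) (s : ℝ) (x : E3) : ℝ :=
  B.C s x ^ (-gd) * dX i (a s) x

/-- Its time derivative. -/
def co' (B : BgD) (a : ℝ → E3 → ℝ) (i : Ix) (s : ℝ) (x : E3) : ℝ :=
  -gd * (B.C s x ^ (-gd) * (dS B.C s x * (B.C s x)⁻¹)) * dX i (a s) x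
    + B.C s x ^ (-gd) * dX i (dS a s) x

lemma Bk.smD_co (hB : B.Ok) {a : ℝ → E3 → ℝ} (h : Bk B a) (i : Ix) :
    SmD (co B a i) (co' B a i) :=
  (smD_Cpow hB).mul (h.smd.dX i)

lemma Bk.sy_co (hB : B.Ok) {a : ℝ → E3 → ℝ} (h : Bk B a) (i : Ix) :
    Sy B 0 B.kap (co B a i) :=
  ((sy_Cpow hB).mul (h.sy.dX hB i)).cast (by simp) (by simp only [BgD.kap, gd]; ring)

lemma Bk.sy_co' (hB : B.Ok) {a : ℝ → E3 → ℝ} (h : Bk B a) (i : Ix) :
    Sy B B.r (B.kap - B.r) (co' B a i) :=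
  ((((sy_Cpow hB).mul ((bk_C hB).sy'.mul (sy_invC hB))).const_mul _).mul (h.sy.dX hB i)).cast
      (by simp) (by simp only [BgD.kap, gd]; ring) |>.add
    (((sy_Cpow hB).mul (h.sy'.dX hB i)).cast (by simp) (by simp only [BgD.kap, gd]; ring))

lemma k1_mul_co (hB : B.Ok) (a : ℝ → E3 → ℝ) (i : Ix) (s : ℝ) (x : E3) :
    B.k1 s x * co B a i s x = Real.exp (-B.r * s) * dX i (a s) x := by
  unfold BgD.k1 co gd
  rw [mul_assoc, ← mul_assoc (B.C s x ^ _), ← Real.rpow_add (hB.C_pos s x), add_neg_cancel,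
    Real.rpow_zero, one_mul]

/-- Error in the momentum equation. -/
def eu (B : BgD) (j : Ix) (s : ℝ) (x : E3) : ℝ :=
  (B.mat (B.u j) s x + (dd + 2) * (Real.exp (-B.r * s) * B.C s x * dX j (B.C s) x)) * (B.C s x)⁻¹

/-- Error in the energy equation. -/
def ec (B : BgD) (s : ℝ) (x : E3) : ℝ :=
  (B.mat B.C s x + (dd : ℝ)⁻¹ * (B.C s x * ∑ i, Real.exp (-B.r * s) * dX i (B.u i s) x)) *
    (B.C s x)⁻¹

lemma sy_eu (hB : B.Ok) (j : Ix) : Sy B B.r (-B.r) (eu B j) :=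
  ((((bk_u hB j).mat hB).add ((((bk_C hB).exp_mul.mul ((bk_C hB).sy.dX hB j)).cast (by ring)
    (by ring)).const_mul (dd + 2))).mul (sy_invC hB)).cast (by ring) (by ring)

lemma sy_ec (hB : B.Ok) : Sy B B.r (-B.r) (ec B) :=
  ((((bk_C hB).mat hB).add ((((bk_C hB).sy.mul (Sy.sum3 fun i => (bk_u hB i).exp_dX hB i)).cast
    (by ring) (by ring)).const_mul (dd : ℝ)⁻¹)).mul (sy_invC hB)).cast (by ring) (by ring)

/-- The two integral bounds for powers of `Lam`. -/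
def LamInt (B : BgD) : Prop :=
  ∀ b : ℝ, 0 < b → (∃ C : ℝ, ∀ s, 0 ≤ s →
      tint (fun x => B.Lam s x ^ (-(dd : ℝ) - b)) ≤ C * Real.exp (b * s)) ∧
    ∃ C : ℝ, ∀ s, 0 ≤ s → tint (fun x => B.Lam s x ^ (-(dd : ℝ) + b)) ≤ C

lemma E_le_exp (hI : LamInt B) {t p a : ℝ} (hp : p < a) {G : ℝ → E3 → SV}
    (h : VS B.sig (P B t p) G) (n : ℕ) : ∃ C : ℝ, 0 < C ∧ ∀ s, 0 ≤ s →
      B.E n 1 a s (G s) (G s) ≤ C * Real.exp (-2 * (t + p) * s) := by
  obtain ⟨C, hC, hb⟩ := E_le_P h n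
  obtain ⟨D, hD⟩ := (hI (2 * a - 2 * p) (by linarith)).1
  refine ⟨C * (|D| + 1), by positivity, fun s hs => (hb a s hs).trans ?_⟩
  have e : Real.exp (-2 * (t + p) * s) =
      Real.exp (-(2 * a + 2 * t) * s) * Real.exp ((2 * a - 2 * p) * s) := by
    rw [← Real.exp_add]; congr 1; ring
  rw [e, mul_assoc, mul_left_comm (|D| + 1)]
  gcongr
  refine (hD s hs).trans ?_
  gcongr
  linarith [le_abs_self D]

lemma E_le_exp' (hI : LamInt B) {t p : ℝ} (hp : 0 < p) {G : ℝ → E3 → SV}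
    (h : VS B.sig (P B t p) G) (n : ℕ) : ∃ C : ℝ, 0 < C ∧ ∀ s, 0 ≤ s →
      B.E n 1 0 s (G s) (G s) ≤ C * Real.exp (-2 * t * s) := by
  obtain ⟨C, hC, hb⟩ := E_le_P h n
  obtain ⟨D, hD⟩ := (hI (2 * p) (by linarith)).2
  refine ⟨C * (|D| + 1), by positivity, fun s hs => (hb 0 s hs).trans ?_⟩
  rw [show -(dd : ℝ) - (2 * 0 - 2 * p) = -dd + 2 * p by ring,
    show -(2 * 0 + 2 * t) * s = -2 * t * s by ring, mul_assoc C, mul_comm (|D| + 1)]
  gcongr
  linarith [le_abs_self D, hD s hs]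

theorem corr_of (hI : ∀ B : BgD, B.Ok → LamInt B) : CorrStmt := by
  intro B hB Q
  have hI := hI B hB
  choose Φ hΦ using fun i j => Q.inv _ (SA_mem i j) (PP_SA i j)
  choose Ψ hΨ using fun i => Q.inv _ (SB_mem i) (PP_SB i)
  have hk0 := hB.kap_pos
  have hr := hB.one_lt_r
  have he := hB.eta_pos
  set gc : ℝ → E3 → SV := fun s x =>
    -(∑ i, ∑ j, co B (B.u j) i s x • Φ i j + ∑ i, co B B.C i s x • Ψ i) with hgc
  set gc' : ℝ → E3 → SV := fun s x =>
    -(∑ i, ∑ j, co' B (B.u j) i s x • Φ i j + ∑ i, co' B B.C i s x • Ψ i) with hgc'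
  set R : ℝ → E3 → SV := fun s x =>
    -(∑ j, eu B j s x • mulV j sqMS + ∑ j, ec B s x • mulV j (mulV j sqMS)) with hR
  have v1 : VS B.sig (P B 0 B.kap) gc :=
    (VS.add _ _ (VS.sum3 fun i => VS.sum3 fun j => VS.base _ (Φ i j) ((bk_u hB j).sy_co hB i))
      (VS.sum3 fun i => VS.base _ (Ψ i) ((bk_C hB).sy_co hB i))).neg
  have v2 : VS B.sig (P B B.r (B.kap - B.r)) gc' :=
    (VS.add _ _ (VS.sum3 fun i => VS.sum3 fun j => VS.base _ (Φ i j) ((bk_u hB j).sy_co' hB i))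
      (VS.sum3 fun i => VS.base _ (Ψ i) ((bk_C hB).sy_co' hB i))).neg
  have v3 : VS B.sig (P B B.r (B.kap - B.r)) fun s x => gc' s x + (B.fld s).tr (gc s) x :=
    VS.add _ _ v2 (by simpa only [add_zero] using vs_tr hB v1)
  have v4 : VS B.sig (fun s x => if 1 / 40 ≤ B.Lam s x then P B B.r (-B.r) s x else 0) R :=
    (VS.add _ _ (VS.sum3 fun j => VS.base _ (mulV j sqMS) (US.cutoff (sy_eu hB j) fun s x hx => by
        rw [eu, ← mul_assoc, hB.euler_u j s x hx, zero_mul]))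
      (VS.sum3 fun j => VS.base _ (mulV j (mulV j sqMS)) (US.cutoff (sy_ec hB) fun s x hx => by
        rw [ec, ← mul_assoc, hB.euler_C s x hx, zero_mul]))).neg
  refine ⟨gc, gc', R, ((SmD.sum _ fun i _ => SmD.sum _ fun j _ =>
      ((bk_u hB j).smD_co hB i).smul_const (Φ i j)).add
      (SmD.sum _ fun i _ => ((bk_C hB).smD_co hB i).smul_const (Ψ i))).neg,
    v4.sm, v1.per, v2.per, v4.per, fun s x => ?_, fun n δ _ hδ hδ' => ?_⟩
  · have hC := (hB.C_pos s x).ne'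
    have e1 : ∀ j, eu B j s x = B.mat (B.u j) s x / B.C s x
        + (dd + 2) * (Real.exp (-B.r * s) * dX j (B.C s) x) := fun j => by
      rw [eu]; field_simp
    have e2 : ec B s x = B.mat B.C s x / B.C s x
        + (dd : ℝ)⁻¹ * ∑ i, Real.exp (-B.r * s) * dX i (B.u i s) x := by
      have := dr_ne
      rw [ec]; field_simp
    simp only [hgc, hR, map_neg, map_add, map_sum, map_smul, hΦ, hΨ, smul_neg, smul_add,
      Finset.smul_sum, smul_smul, k1_mul_co hB, Fld.src, Fld.vel, neg_neg, ap_sqMS]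
    simp only [SA_eq, SB_eq, e1, e2, BgD.fld, neg_div]
    exact src_id _ (fun i j => mulV i (mulV j sqMS)) (fun i j => mulV i (mulV j (mulV j sqMS))) _ _
      (fun i j => Real.exp (-B.r * s) * dX i (B.u j s) x) _ _ _
  · obtain ⟨C1, hC1, h1⟩ := E_le_exp' hI hk0 v1 n
    obtain ⟨C2, hC2, h2⟩ := E_le_exp hI hδ' (v1.lower hδ) n
    obtain ⟨C3, hC3, h3⟩ : ∃ C : ℝ, 0 < C ∧ ∀ s, 0 ≤ s →
        B.E n 1 0 s (fun x => gc' s x + (B.fld s).tr (gc s) x)
          (fun x => gc' s x + (B.fld s).tr (gc s) x) ≤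
          C * Real.exp (-2 * min (B.kap / 2) B.r * s) := by
      rcases lt_or_ge (B.kap / 2) B.r with h | h
      · rw [min_eq_left h.le]
        simpa only [add_sub_cancel] using E_le_exp hI (a := 0) (p := B.kap / 2 - B.r) (by linarith)
          (v3.lower (by linarith)) n
      · rw [min_eq_right h]
        exact E_le_exp' hI (by linarith) v3 n
    obtain ⟨C4, hC4, h4⟩ := E_le_exp hI (a := B.eta) (p := δ - B.r) (by linarith)
      (v3.lower (by linarith)) n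
    obtain ⟨C5, hC5, h5⟩ := E_le_cutoff hB v4 n
    have m : ∀ {e c t : ℝ}, e ≤ c * Real.exp t → c ≤ C1 + C2 + C3 + C4 + C5 →
        e ≤ (C1 + C2 + C3 + C4 + C5) * Real.exp t := fun h h' =>
      h.trans (mul_le_mul_of_nonneg_right h' (Real.exp_pos _).le)
    refine ⟨C1 + C2 + C3 + C4 + C5, by positivity, fun s hs =>
      ⟨?_, ?_, m (h3 s hs) (by linarith), ?_, fun a ha => m (h5 a s hs ?_ ?_) (by linarith)⟩⟩
    · have h6 := h1 s hs
      simp only [mul_zero, zero_mul, Real.exp_zero, mul_one] at h6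
      linarith
    · have h6 := h2 s hs
      rw [zero_add] at h6
      exact m h6 (by linarith)
    · have h6 := h4 s hs
      rw [add_sub_cancel] at h6
      exact m h6 (by linarith)
    · rcases ha with rfl | rfl
      exacts [le_rfl, he.le]
    · rcases ha with rfl | rfl
      exacts [he.le, le_rfl]

end Pool.Agent.BoltzM.Corr2
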